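import Mathlib

/-!
# Project GL (MP_05dcdc_nt): block GG12 (finite abelian groups with many quadratic characters)
-/

set_option autoImplicit false

namespace Pool.Agent.GL

open Finset

/-- all the characters together -/
noncomputable def gg12_Phi {G : Type} [CommGroup G] (P : Finset ℕ) (χ : ℕ → G →* ℤˣ) :
    G →* ({p // p ∈ P} → ℤˣ) := MonoidHom.pi (fun p => χ p.1)

theorem gg12_Phi_ker {G : Type} [CommGroup G] (P : Finset ℕ) (χ : ℕ → G →* ℤˣ) (g : G) :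
    g ∈ (gg12_Phi P χ).ker ↔ ∀ p ∈ P, χ p g = 1 := by
  rw [MonoidHom.mem_ker]
  constructor
  · intro h p hp
    exact congrFun h ⟨p, hp⟩
  · intro h
    funext p
    exact h p.1 p.2

theorem gg12_Phi_surj {G : Type} [CommGroup G] (P : Finset ℕ) (χ : ℕ → G →* ℤˣ)
    (hs : ∀ ε : ℕ → ℤˣ, ∃ g, ∀ p ∈ P, χ p g = ε p) : Function.Surjective (gg12_Phi P χ) := by
  classical
  intro v
  obtain ⟨g, hg⟩ := hs (fun p => if hp : p ∈ P then v ⟨p, hp⟩ else 1)
  refine ⟨g, ?_⟩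
  funext p
  have := hg p.1 p.2
  rw [dif_pos p.2] at this
  exact this

theorem gg12_cardV (P : Finset ℕ) : Nat.card ({p // p ∈ P} → ℤˣ) = 2 ^ P.card := by
  classical
  rw [Nat.card_eq_fintype_card, Fintype.card_fun, Fintype.card_units_int, Fintype.card_coe]

theorem gg12_Phi_index {G : Type} [CommGroup G] (P : Finset ℕ) (χ : ℕ → G →* ℤˣ)
    (hs : ∀ ε : ℕ → ℤˣ, ∃ g, ∀ p ∈ P, χ p g = ε p) : (gg12_Phi P χ).ker.index = 2 ^ P.card := by
  rw [Subgroup.index_ker, MonoidHom.range_eq_top.mpr (gg12_Phi_surj P χ hs), Subgroup.card_top, gg12_cardV]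

/-- GG1 -/
theorem gg_dvd {G : Type} [CommGroup G] [Finite G] (P : Finset ℕ) (χ : ℕ → G →* ℤˣ)
    (hs : ∀ ε : ℕ → ℤˣ, ∃ g, ∀ p ∈ P, χ p g = ε p) : 2 ^ P.card ∣ Nat.card G := by
  rw [← gg12_Phi_index P χ hs]
  exact Subgroup.index_dvd_card _

/-- the squares -/
def gg12_Q (G : Type) [CommGroup G] : Subgroup G := (powMonoidHom 2 : G →* G).range

theorem gg12_Q_mem {G : Type} [CommGroup G] (g : G) : g ∈ gg12_Q G ↔ ∃ k : G, g = k ^ 2 := by
  constructor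
  · rintro ⟨k, rfl⟩
    exact ⟨k, rfl⟩
  · rintro ⟨k, rfl⟩
    exact ⟨k, rfl⟩

theorem gg12_chi_sq {G : Type} [CommGroup G] (ψ : G →* ℤˣ) (k : G) : ψ (k ^ 2) = 1 := by
  rw [map_pow, Int.units_sq]

theorem gg12_Q_le {G : Type} [CommGroup G] (P : Finset ℕ) (χ : ℕ → G →* ℤˣ) :
    gg12_Q G ≤ (gg12_Phi P χ).ker := by
  intro g hg
  obtain ⟨k, rfl⟩ := (gg12_Q_mem g).1 hg
  rw [gg12_Phi_ker]
  intro p _
  exact gg12_chi_sq _ _

/-- GG2 : if some product of the characters is not trivial but trivial on the elements of order 2 -/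
theorem gg_dvd' {G : Type} [CommGroup G] [Finite G] (P : Finset ℕ) (χ : ℕ → G →* ℤˣ)
    (hs : ∀ ε : ℕ → ℤˣ, ∃ g, ∀ p ∈ P, χ p g = ε p) (ψ : G →* ℤˣ) (hψ : ∃ g, ψ g = -1)
    (hψ2 : ∀ g, g ^ 2 = 1 → ψ g = 1) : 2 ^ (P.card + 1) ∣ Nat.card G := by
  have h1 : 2 ^ P.card ∣ (gg12_Q G).index := by
    rw [← gg12_Phi_index P χ hs]
    exact Subgroup.index_dvd_of_le (gg12_Q_le P χ)
  have h2 : 2 ∣ Nat.card (gg12_Q G) := by
    by_contra hodd
    have hodd' : Odd (Nat.card (gg12_Q G)) := by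
      rw [← Nat.not_even_iff_odd]
      exact fun h => hodd h.two_dvd
    obtain ⟨m, hm⟩ := hodd'
    obtain ⟨g, hg⟩ := hψ
    -- the square root
    have hx : g ^ 2 ∈ gg12_Q G := (gg12_Q_mem _).2 ⟨g, rfl⟩
    have hpow : (g ^ 2) ^ (Nat.card (gg12_Q G)) = 1 := by
      have := pow_card_eq_one' (x := (⟨g ^ 2, hx⟩ : gg12_Q G))
      exact congrArg Subtype.val this
    have hh : ((g ^ 2) ^ (m + 1)) ^ 2 = g ^ 2 := by
      rw [← pow_mul, show (m + 1) * 2 = Nat.card (gg12_Q G) + 1 by omega, pow_succ, hpow, one_mul]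
    have h3 : ψ ((g ^ 2) ^ (m + 1)) = 1 := by
      rw [map_pow, gg12_chi_sq, one_pow]
    have h4 : ψ (g * ((g ^ 2) ^ (m + 1))⁻¹) = 1 := by
      apply hψ2
      rw [mul_pow, inv_pow, hh, mul_inv_cancel]
    rw [map_mul, map_inv, h3, inv_one, mul_one, hg] at h4
    exact absurd h4 (by decide)
  have h3 := mul_dvd_mul h1 h2
  rw [← pow_succ, mul_comm (gg12_Q G).index, Subgroup.card_mul_index] at h3
  exact h3

end Pool.Agent.GL
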