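import Pool.Agent.Lib_helper94.GL.GG12

/-!
# Project GL (MP_05dcdc_nt): block GG34 (finite abelian groups with many quadratic characters)
-/

set_option autoImplicit false

namespace Pool.Agent.GL

open Finset

theorem gg34_index {G : Type} [CommGroup G] [Finite G] :
    (gg12_Q G).index = Nat.card {g : G // g ^ 2 = 1} := by
  have h1 := Subgroup.card_mul_index (gg12_Q G)
  have h2 := Subgroup.card_mul_index (powMonoidHom 2 : G →* G).ker
  have h3 : (powMonoidHom 2 : G →* G).ker.index = Nat.card (gg12_Q G) := Subgroup.index_ker _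
  have h4 : Nat.card (powMonoidHom 2 : G →* G).ker = Nat.card {g : G // g ^ 2 = 1} := rfl
  rw [h3, h4, mul_comm, ← h1] at h2
  have hpos : 0 < Nat.card (gg12_Q G) := Nat.card_pos
  exact (Nat.eq_of_mul_eq_mul_left hpos h2).symm

/-- the common kernel is the group of squares -/
theorem gg34_eq {G : Type} [CommGroup G] [Finite G] (P : Finset ℕ) (χ : ℕ → G →* ℤˣ)
    (hs : ∀ ε : ℕ → ℤˣ, ∃ g, ∀ p ∈ P, χ p g = ε p)
    (h2 : Nat.card {g : G // g ^ 2 = 1} = 2 ^ P.card) : gg12_Q G = (gg12_Phi P χ).ker := by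
  have h3 : (gg12_Q G).index = (gg12_Phi P χ).ker.index := by
    rw [gg34_index, h2, gg12_Phi_index P χ hs]
  have h4 := Subgroup.card_mul_index (gg12_Q G)
  have h5 := Subgroup.card_mul_index (gg12_Phi P χ).ker
  rw [← h3, ← h4] at h5
  have hpos : 0 < (gg12_Q G).index := Nat.pos_of_ne_zero Subgroup.index_ne_zero_of_finite
  have h6 : Nat.card (gg12_Phi P χ).ker = Nat.card (gg12_Q G) := Nat.eq_of_mul_eq_mul_right hpos h5
  exact Subgroup.eq_of_le_of_card_ge (gg12_Q_le P χ) h6.le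

/-- GG3 : `G[2]` of order `2^|P|`: the common kernel is `G²` -/
theorem gg_sq {G : Type} [CommGroup G] [Finite G] (P : Finset ℕ) (χ : ℕ → G →* ℤˣ)
    (hs : ∀ ε : ℕ → ℤˣ, ∃ g, ∀ p ∈ P, χ p g = ε p)
    (h2 : Nat.card {g : G // g ^ 2 = 1} = 2 ^ P.card) (g : G) :
    (∀ p ∈ P, χ p g = 1) ↔ ∃ k : G, g = k ^ 2 := by
  rw [← gg12_Phi_ker, ← gg34_eq P χ hs h2, gg12_Q_mem]

theorem gg34_cardG {G : Type} [CommGroup G] [Finite G] (P : Finset ℕ)
    (h2 : Nat.card {g : G // g ^ 2 = 1} = 2 ^ P.card) : Nat.card G = 2 ^ P.card * Nat.card (gg12_Q G) := by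
  rw [← Subgroup.card_mul_index (gg12_Q G), gg34_index, h2, mul_comm]

/-- GG4 : the 4-rank -/
theorem gg_four {G : Type} [CommGroup G] [Finite G] (P : Finset ℕ) (χ : ℕ → G →* ℤˣ)
    (hs : ∀ ε : ℕ → ℤˣ, ∃ g, ∀ p ∈ P, χ p g = ε p)
    (h2 : Nat.card {g : G // g ^ 2 = 1} = 2 ^ P.card) :
    (2 ^ (P.card + 1) ∣ Nat.card G ↔ ∃ t : G, t ≠ 1 ∧ t ^ 2 = 1 ∧ ∀ p ∈ P, χ p t = 1) ∧
    (∀ t t' : G, t ≠ 1 → t' ≠ 1 → t ≠ t' → t ^ 2 = 1 → t' ^ 2 = 1 → (∀ p ∈ P, χ p t = 1) →
      (∀ p ∈ P, χ p t' = 1) → 2 ^ (P.card + 2) ∣ Nat.card G) := by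
  have hpos : 0 < 2 ^ P.card := by positivity
  have hmem : ∀ t : G, t ∈ gg12_Q G ↔ ∀ p ∈ P, χ p t = 1 := by
    intro t
    rw [gg34_eq P χ hs h2, gg12_Phi_ker]
  have hiff : 2 ^ (P.card + 1) ∣ Nat.card G ↔ 2 ∣ Nat.card (gg12_Q G) := by
    rw [gg34_cardG P h2, pow_succ]
    exact Nat.mul_dvd_mul_iff_left hpos
  refine ⟨?_, ?_⟩
  · rw [hiff]
    constructor
    · intro h
      have : Fact (Nat.Prime 2) := ⟨Nat.prime_two⟩
      obtain ⟨x, hx⟩ := exists_prime_orderOf_dvd_card' 2 h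
      refine ⟨x.1, ?_, ?_, (hmem x.1).1 x.2⟩
      · intro hx1
        have : x = 1 := Subtype.ext hx1
        rw [this, orderOf_one] at hx
        omega
      · have := pow_orderOf_eq_one x
        rw [hx] at this
        exact congrArg Subtype.val this
    · rintro ⟨t, ht1, ht2, ht3⟩
      have htQ : t ∈ gg12_Q G := (hmem t).2 ht3
      have ho : orderOf (⟨t, htQ⟩ : gg12_Q G) = 2 := by
        have : Fact (Nat.Prime 2) := ⟨Nat.prime_two⟩
        apply orderOf_eq_prime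
        · exact Subtype.ext ht2
        · intro h
          exact ht1 (congrArg Subtype.val h)
      rw [← ho]
      exact orderOf_dvd_natCard _
  · intro t t' ht1 ht1' htt ht2 ht2' ht3 ht3'
    have : Fact (Nat.Prime 2) := ⟨Nat.prime_two⟩
    have htQ : t ∈ gg12_Q G := (hmem t).2 ht3
    have htQ' : t' ∈ gg12_Q G := (hmem t').2 ht3'
    let a : gg12_Q G := ⟨t, htQ⟩
    let b : gg12_Q G := ⟨t', htQ'⟩
    have ha2 : a ^ 2 = 1 := Subtype.ext ht2
    have hb2 : b ^ 2 = 1 := Subtype.ext ht2'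
    have ha1 : a ≠ 1 := fun h => ht1 (congrArg Subtype.val h)
    have hb1 : b ≠ 1 := fun h => ht1' (congrArg Subtype.val h)
    have hab : a ≠ b := fun h => htt (congrArg Subtype.val h)
    have hoa : orderOf a = 2 := orderOf_eq_prime ha2 ha1
    have hb : b ∉ Subgroup.zpowers a := by
      intro h
      obtain ⟨k, hk⟩ := Subgroup.mem_zpowers_iff.1 h
      rcases Int.even_or_odd k with ⟨j, hj⟩ | ⟨j, hj⟩
      · apply hb1
        rw [← hk, hj, ← two_mul, zpow_mul]
        have : a ^ (2 : ℤ) = 1 := by exact_mod_cast ha2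
        rw [this, one_zpow]
      · apply hab
        rw [← hk, hj, zpow_add, zpow_mul]
        have : a ^ (2 : ℤ) = 1 := by exact_mod_cast ha2
        rw [this, one_zpow, zpow_one, one_mul]
    have h4 : 2 ∣ (Subgroup.zpowers a).index := by
      have ho : orderOf (QuotientGroup.mk b : gg12_Q G ⧸ Subgroup.zpowers a) = 2 := by
        apply orderOf_eq_prime
        · rw [← QuotientGroup.mk_pow, hb2, QuotientGroup.mk_one]
        · intro h
          exact hb ((QuotientGroup.eq_one_iff b).1 h)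
      rw [Subgroup.index, ← ho]
      exact orderOf_dvd_natCard _
    have h5 : Nat.card (Subgroup.zpowers a) = 2 := by
      rw [Nat.card_zpowers, hoa]
    have h6 : 2 ^ 2 ∣ Nat.card (gg12_Q G) := by
      rw [← Subgroup.card_mul_index (Subgroup.zpowers a), h5, pow_two]
      exact mul_dvd_mul_left 2 h4
    rw [gg34_cardG P h2, pow_add]
    exact Nat.mul_dvd_mul_left _ h6

end Pool.Agent.GL
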